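import Mathlib

set_option autoImplicit false

namespace Pool.Agent.Results.MP_711a76_lc.Five
open Finset

abbrev Word (q n : ℕ) := Fin n → ZMod q × ZMod q

def wzero (q n : ℕ) : Word q n := fun _ => (0, 0)

def wadd {q n : ℕ} (u v : Word q n) : Word q n := fun i => ((u i).1 + (v i).1, (u i).2 + (v i).2)

def wsmul {q n : ℕ} (r : ZMod q) (u : Word q n) : Word q n := fun i => (r * (u i).1, r * (u i).2)

def symp {q n : ℕ} (u v : Word q n) : ZMod q := ∑ i, ((u i).1 * (v i).2 - (v i).1 * (u i).2)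

def wt {q n : ℕ} (u : Word q n) : ℕ := (univ.filter fun i => u i ≠ (0, 0)).card

def perp {q n : ℕ} (C : Set (Word q n)) : Set (Word q n) := {u | ∀ v ∈ C, symp u v = 0}

def Subspace {q n : ℕ} (C : Set (Word q n)) : Prop :=
  wzero q n ∈ C ∧ (∀ u ∈ C, ∀ v ∈ C, wadd u v ∈ C) ∧ ∀ r, ∀ u ∈ C, wsmul r u ∈ C

def Stabilizer {q n : ℕ} (C : Set (Word q n)) : Prop := Subspace C ∧ C ⊆ perp C

open Classical in
noncomputable def cdist {q n : ℕ} (C : Set (Word q n)) : ℕ :=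
  if C = perp C then sInf {w | ∃ u ∈ C, u ≠ wzero q n ∧ wt u = w}
  else sInf {w | ∃ u ∈ perp C, u ∉ C ∧ wt u = w}

/-- `f` restricts to a weight-preserving linear bijection from `C` onto `D` -/
def WtIso {q n : ℕ} (C D : Set (Word q n)) (f : Word q n → Word q n) : Prop :=
  Set.BijOn f C D ∧ (∀ u ∈ C, ∀ v ∈ C, f (wadd u v) = wadd (f u) (f v)) ∧
    (∀ r, ∀ u ∈ C, f (wsmul r u) = wsmul r (f u)) ∧ ∀ u ∈ C, wt (f u) = wt u

/-- `g` is given by an invertible two by two matrix -/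
def InGL {q : ℕ} (g : ZMod q × ZMod q → ZMod q × ZMod q) : Prop :=
  ∃ a b c d : ZMod q, a * d - b * c ≠ 0 ∧ ∀ x, g x = (a * x.1 + b * x.2, c * x.1 + d * x.2)

/-- `f` agrees on `C` with a monomial transformation -/
def Extends {q n : ℕ} (C : Set (Word q n)) (f : Word q n → Word q n) : Prop :=
  ∃ (π : Equiv.Perm (Fin n)) (g : Fin n → ZMod q × ZMod q → ZMod q × ZMod q),
    (∀ i, InGL (g i)) ∧ ∀ u ∈ C, ∀ i, f u i = g i (u (π.symm i))

def gx : Fin 4 → Fin 5 → ZMod 2 :=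
  ![![1, 0, 0, 1, 0], ![0, 1, 0, 0, 1], ![1, 0, 1, 0, 0], ![0, 1, 0, 1, 0]]
def gz : Fin 4 → Fin 5 → ZMod 2 :=
  ![![0, 1, 1, 0, 0], ![0, 0, 1, 1, 0], ![0, 0, 0, 1, 1], ![1, 0, 0, 0, 1]]

def en (a : Fin 4 → ZMod 2) : Word 2 5 := fun i => (∑ k, a k * gx k i, ∑ k, a k * gz k i)

def sw : Equiv.Perm (Fin 4) := Equiv.swap 0 1

lemma k0 : ∀ a b, wadd (en a) (en b) = en (a + b) := by decide +kernel
lemma k0' : ∀ r a, wsmul r (en a) = en (r • a) := by decide +kernel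
lemma k0'' : wzero 2 5 = en 0 := by decide +kernel
lemma k1 : ∀ a b, en a = en b → a = b := by decide +kernel
lemma k2 : ∀ a b, symp (en a) (en b) = 0 := by decide +kernel
lemma k3 : ∀ a : Fin 4 → ZMod 2, wt (en (a ∘ sw)) = wt (en a) := by decide +kernel
lemma k4 : ∀ j : Fin 5, ∃ a : Fin 4 → ZMod 2, ¬ (en (a ∘ sw) 0 = (0, 0) ↔ en a j = (0, 0)) := by
  decide +kernel
lemma k5 : ∀ a b c d e : ZMod 2 × ZMod 2,
    (∀ k : Fin 4, symp ![a, b, c, d, e] (en (Pi.single k 1)) = 0) →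
      ![a, b, c, d, e] ≠ wzero 2 5 → 2 < wt ![a, b, c, d, e] := by decide +kernel
lemma k6 : (∀ a, symp (fun _ => (1, 0)) (en a) = 0) ∧ ∀ a, en a ≠ fun _ => (1, 0) := by
  decide +kernel
lemma k7 : ∀ a b c d : ZMod 2, a * d - b * c ≠ 0 → ∀ x : ZMod 2 × ZMod 2,
    ((a * x.1 + b * x.2, c * x.1 + d * x.2) = (0, 0) ↔ x = (0, 0)) := by decide +kernel
lemma k8 : ∀ a : Fin 4 → ZMod 2, (a ∘ sw) ∘ sw = a := by decide +kernel

theorem result : ∃ (q n : ℕ) (C D : Set (Word q n)), q.Prime ∧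
    Stabilizer C ∧ Stabilizer D ∧ 2 < cdist C ∧ 2 < cdist D ∧
    ∃ f : Word q n → Word q n, WtIso C D f ∧ ¬ Extends C f := by
  have inj : Function.Injective en := fun a b => k1 a b
  have hS : Stabilizer (Set.range en) := by
    refine ⟨⟨⟨0, k0''.symm⟩, ?_, ?_⟩, ?_⟩
    · rintro u ⟨a, rfl⟩ v ⟨b, rfl⟩
      exact ⟨_, (k0 a b).symm⟩
    · rintro r u ⟨a, rfl⟩
      exact ⟨_, (k0' r a).symm⟩
    · rintro u ⟨a, rfl⟩ v ⟨b, rfl⟩
      exact k2 a b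
  have hx : (fun _ => (1, 0) : Word 2 5) ∈ perp (Set.range en) := by
    rintro v ⟨b, rfl⟩
    exact k6.1 b
  have hy : (fun _ => (1, 0) : Word 2 5) ∉ Set.range en := by
    rintro ⟨b, hb⟩
    exact k6.2 b hb
  have hd : 2 < cdist (Set.range en) := by
    unfold cdist
    rw [if_neg (fun h => hy (by rw [← h] at hx; exact hx))]
    refine Nat.lt_of_succ_le (le_csInf ⟨_, _, hx, hy, rfl⟩ ?_)
    rintro w ⟨u, h1, h2, rfl⟩
    have e : u = ![u 0, u 1, u 2, u 3, u 4] := by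
      funext i; fin_cases i <;> rfl
    rw [e] at h1 h2 ⊢
    exact k5 _ _ _ _ _ (fun k => h1 _ ⟨Pi.single k 1, rfl⟩)
      fun h => h2 (by rw [h]; exact hS.1.1)
  let f : Word 2 5 → Word 2 5 := fun u => en (Function.invFun en u ∘ sw)
  have hf : ∀ a, f (en a) = en (a ∘ sw) := fun a => by
    simp only [f, Function.leftInverse_invFun inj a]
  refine ⟨2, 5, Set.range en, Set.range en, Nat.prime_two, hS, hS, hd, hd, f,
    ⟨⟨?_, ?_, ?_⟩, ?_, ?_, ?_⟩, ?_⟩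
  · rintro u -
    exact ⟨_, rfl⟩
  · rintro u ⟨a, rfl⟩ v ⟨b, rfl⟩ h
    rw [hf, hf] at h
    rw [← k8 a, inj h, k8]
  · rintro u ⟨a, rfl⟩
    exact ⟨en (a ∘ sw), ⟨_, rfl⟩, by rw [hf, k8]⟩
  · rintro u ⟨a, rfl⟩ v ⟨b, rfl⟩
    rw [k0, hf, hf, hf, k0]
    rfl
  · rintro r u ⟨a, rfl⟩
    rw [k0', hf, hf, k0']
    rfl
  · rintro u ⟨a, rfl⟩
    rw [hf]
    exact k3 a
  · rintro ⟨π, g, hg, h⟩
    obtain ⟨a, ha⟩ := k4 (π.symm 0)
    apply ha
    have := h (en a) ⟨a, rfl⟩ 0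
    rw [hf] at this
    obtain ⟨p, q, r, s, h1, h2⟩ := hg 0
    rw [this, h2]
    exact k7 p q r s h1 _

end Pool.Agent.Results.MP_711a76_lc.Five
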